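import Mathlib

/-!
# The integer Heisenberg group acting on `ℂ × ℂ × ℂ`
-/

namespace Pool.Agent.H65

open Topology Set

/-- The integer Heisenberg group. -/
@[ext] structure Heis where
  a : ℤ
  b : ℤ
  c : ℤ

namespace Heis

instance : Mul Heis := ⟨fun g h => ⟨g.a + h.a, g.b + h.b, g.c + h.c + g.a * h.b⟩⟩
instance : One Heis := ⟨⟨0, 0, 0⟩⟩
instance : Inv Heis := ⟨fun g => ⟨-g.a, -g.b, -g.c + g.a * g.b⟩⟩

@[simp] lemma mul_a (g h : Heis) : (g * h).a = g.a + h.a := rfl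
@[simp] lemma mul_b (g h : Heis) : (g * h).b = g.b + h.b := rfl
@[simp] lemma mul_c (g h : Heis) : (g * h).c = g.c + h.c + g.a * h.b := rfl
@[simp] lemma one_a : (1 : Heis).a = 0 := rfl
@[simp] lemma one_b : (1 : Heis).b = 0 := rfl
@[simp] lemma one_c : (1 : Heis).c = 0 := rfl
@[simp] lemma inv_a (g : Heis) : (g⁻¹).a = -g.a := rfl
@[simp] lemma inv_b (g : Heis) : (g⁻¹).b = -g.b := rfl
@[simp] lemma inv_c (g : Heis) : (g⁻¹).c = -g.c + g.a * g.b := rfl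

instance : Group Heis :=
  Group.ofLeftAxioms (by intro x y z; ext <;> simp <;> ring) (by intro x; ext <;> simp)
    (by intro x; ext <;> simp)

/-- The model space. -/
abbrev V : Type := ℂ × ℂ × ℂ

noncomputable instance : SMul Heis V :=
  ⟨fun g v => (v.1 + g.a, v.2.1 + g.b, v.2.2 + g.c + g.a * v.2.1)⟩

lemma smul_def (g : Heis) (v : V) :
    g • v = (v.1 + g.a, v.2.1 + g.b, v.2.2 + g.c + g.a * v.2.1) := rfl

@[simp] lemma smul_fst (g : Heis) (v : V) : (g • v).1 = v.1 + g.a := rfl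
@[simp] lemma smul_snd_fst (g : Heis) (v : V) : (g • v).2.1 = v.2.1 + g.b := rfl
@[simp] lemma smul_snd_snd (g : Heis) (v : V) :
    (g • v).2.2 = v.2.2 + g.c + g.a * v.2.1 := rfl

noncomputable instance : MulAction Heis V where
  one_smul v := by
    ext <;> simp
  mul_smul g h v := by
    refine Prod.ext ?_ (Prod.ext ?_ ?_)
    · simp; ring
    · simp; ring
    · simp; ring

instance : ContinuousConstSMul Heis V where
  continuous_const_smul g := by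
    show Continuous fun v : V => (v.1 + (g.a : ℂ), v.2.1 + (g.b : ℂ), v.2.2 + g.c + g.a * v.2.1)
    fun_prop

instance : IsCancelSMul Heis V where
  right_cancel' g h v hv := by
    have h1 : v.1 + (g.a : ℂ) = v.1 + h.a := congrArg Prod.fst hv
    have h2 : v.2.1 + (g.b : ℂ) = v.2.1 + h.b := congrArg (fun w : V => w.2.1) hv
    have h3 : v.2.2 + (g.c : ℂ) + g.a * v.2.1 = v.2.2 + h.c + h.a * v.2.1 :=
      congrArg (fun w : V => w.2.2) hv
    have e1 : (g.a : ℂ) = h.a := add_left_cancel h1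
    have e2 : (g.b : ℂ) = h.b := add_left_cancel h2
    rw [e1] at h3
    have e3 : (g.c : ℂ) = h.c := by
      have := add_right_cancel h3
      exact add_left_cancel this
    ext
    · exact_mod_cast e1
    · exact_mod_cast e2
    · exact_mod_cast e3

lemma mem_Icc_of_norm_le {n : ℤ} {N : ℕ} (h : ‖(n : ℂ)‖ ≤ N) :
    n ∈ Set.Icc (-(N : ℤ)) N := by
  rw [Complex.norm_intCast, abs_le] at h
  constructor
  · exact_mod_cast h.1
  · exact_mod_cast h.2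

lemma norm_le_of_smul {M : ℕ} {g : Heis} {v : V} (hv : ‖v‖ ≤ M) (hgv : ‖g • v‖ ≤ M) :
    ‖(g.a : ℂ)‖ ≤ 2 * M ∧ ‖(g.b : ℂ)‖ ≤ 2 * M ∧ ‖(g.c : ℂ)‖ ≤ 2 * M + 2 * M * M := by
  have hv1 : ‖v.1‖ ≤ M := (norm_fst_le v).trans hv
  have hv2 : ‖v.2.1‖ ≤ M := ((norm_fst_le v.2).trans (norm_snd_le v)).trans hv
  have hv3 : ‖v.2.2‖ ≤ M := ((norm_snd_le v.2).trans (norm_snd_le v)).trans hv
  have hw1 : ‖(g • v).1‖ ≤ M := (norm_fst_le (g • v)).trans hgv
  have hw2 : ‖(g • v).2.1‖ ≤ M := ((norm_fst_le (g • v).2).trans (norm_snd_le (g • v))).trans hgv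
  have hw3 : ‖(g • v).2.2‖ ≤ M := ((norm_snd_le (g • v).2).trans (norm_snd_le (g • v))).trans hgv
  have ha : ‖(g.a : ℂ)‖ ≤ 2 * M := by
    have e : (g.a : ℂ) = (g • v).1 - v.1 := by simp
    rw [e]
    calc ‖(g • v).1 - v.1‖ ≤ ‖(g • v).1‖ + ‖v.1‖ := norm_sub_le _ _
      _ ≤ 2 * M := by linarith
  have hb : ‖(g.b : ℂ)‖ ≤ 2 * M := by
    have e : (g.b : ℂ) = (g • v).2.1 - v.2.1 := by simp
    rw [e]
    calc ‖(g • v).2.1 - v.2.1‖ ≤ ‖(g • v).2.1‖ + ‖v.2.1‖ := norm_sub_le _ _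
      _ ≤ 2 * M := by linarith
  refine ⟨ha, hb, ?_⟩
  have e : (g.c : ℂ) = (g • v).2.2 - v.2.2 - g.a * v.2.1 := by rw [smul_snd_snd]; ring
  rw [e]
  calc ‖(g • v).2.2 - v.2.2 - g.a * v.2.1‖ ≤ ‖(g • v).2.2 - v.2.2‖ + ‖(g.a : ℂ) * v.2.1‖ :=
        norm_sub_le _ _
    _ ≤ ‖(g • v).2.2‖ + ‖v.2.2‖ + ‖(g.a : ℂ)‖ * ‖v.2.1‖ := by
        rw [norm_mul]; gcongr; exact norm_sub_le _ _
    _ ≤ M + M + 2 * M * M := by gcongr
    _ = 2 * M + 2 * M * M := by ring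

instance : ProperlyDiscontinuousSMul Heis V where
  finite_disjoint_inter_image := by
    intro K L hK hL
    obtain ⟨R, hR⟩ := (hK.union hL).isBounded.exists_norm_le
    obtain ⟨M, hM⟩ := exists_nat_ge R
    set N : ℕ := 2 * M + 2 * M * M with hN
    let S : Set ℤ := Set.Icc (-(N : ℤ)) N
    have hS : S.Finite := Set.finite_Icc _ _
    have hfin : ((S ×ˢ (S ×ˢ S)).image (fun p : ℤ × ℤ × ℤ => (⟨p.1, p.2.1, p.2.2⟩ : Heis))).Finite :=
      (hS.prod (hS.prod hS)).image _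
    refine hfin.subset ?_
    rintro g ⟨w, ⟨v, hvK, rfl⟩, hwL⟩
    have h1 : ‖v‖ ≤ M := (hR v (Or.inl hvK)).trans hM
    have h2 : ‖g • v‖ ≤ M := (hR _ (Or.inr hwL)).trans hM
    obtain ⟨ha, hb, hc⟩ := norm_le_of_smul h1 h2
    have hNr : ((N : ℕ) : ℝ) = 2 * M + 2 * M * M := by rw [hN]; push_cast; ring
    have hMM : (0 : ℝ) ≤ 2 * M * M := by positivity
    refine ⟨(g.a, g.b, g.c), ⟨?_, ?_, ?_⟩, rfl⟩
    · exact mem_Icc_of_norm_le (by rw [hNr]; linarith)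
    · exact mem_Icc_of_norm_le (by rw [hNr]; linarith)
    · exact mem_Icc_of_norm_le (by rw [hNr]; linarith)

/-- Iterating: `(1,0,0)^n = (n,0,0)`. -/
lemma pow_a (n : ℕ) : (⟨1, 0, 0⟩ : Heis) ^ n = ⟨n, 0, 0⟩ := by
  induction n with
  | zero => rfl
  | succ k ih => rw [pow_succ, ih]; ext <;> simp

lemma pow_b (n : ℕ) : (⟨0, 1, 0⟩ : Heis) ^ n = ⟨0, n, 0⟩ := by
  induction n with
  | zero => rfl
  | succ k ih => rw [pow_succ, ih]; ext <;> simp

lemma not_commute_pow {n m : ℕ} (hn : n ≠ 0) (hm : m ≠ 0) :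
    (⟨1, 0, 0⟩ : Heis) ^ n * (⟨0, 1, 0⟩ : Heis) ^ m ≠
      (⟨0, 1, 0⟩ : Heis) ^ m * (⟨1, 0, 0⟩ : Heis) ^ n := by
  rw [pow_a, pow_b]
  intro h
  have := congrArg Heis.c h
  simp at this
  rcases this with h | h
  · exact hn h
  · exact hm h

end Heis

end Pool.Agent.H65
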