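import Mathlib

/-!
# Functions with bounded differential are Lipschitz for the Riemannian distance
-/

namespace Pool.Agent.H65

open Topology Set Manifold ContDiff Bundle MeasureTheory

variable {E : Type} [NormedAddCommGroup E] [NormedSpace ℝ E]
  {M : Type} [TopologicalSpace M] [ChartedSpace E M]
  [RiemannianBundle (fun (x : M) => TangentSpace 𝓘(ℝ, E) x)]

lemma edist_le_riemannianEDist {h : M → ℝ} (hh : ContMDiff 𝓘(ℝ, E) 𝓘(ℝ, ℝ) 1 h)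
    (hb : ∀ (x : M) (v : TangentSpace 𝓘(ℝ, E) x),
      @enorm ℝ _ (mfderiv 𝓘(ℝ, E) 𝓘(ℝ, ℝ) h x v) ≤ ‖v‖ₑ) (x y : M) :
    edist (h x) (h y) ≤ riemannianEDist 𝓘(ℝ, E) x y := by
  apply le_of_forall_gt (fun r hr ↦ ?_)
  rcases exists_lt_locally_constant_of_riemannianEDist_lt hr zero_lt_one
    with ⟨γ, γ0, γ1, γ_smooth, hγ, -⟩
  refine lt_of_le_of_lt ?_ hγ
  let f : ℝ → ℝ := h ∘ γ
  have hf : ContMDiff 𝓘(ℝ, ℝ) 𝓘(ℝ, ℝ) 1 f := hh.comp γ_smooth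
  have hf' : ContDiffOn ℝ 1 f (Icc 0 1) := (contMDiff_iff_contDiff.1 hf).contDiffOn
  have h01 : edist (h x) (h y) = ‖f 1 - f 0‖ₑ := by
    rw [edist_comm, edist_eq_enorm_sub, ← γ0, ← γ1]
    rfl
  rw [h01, pathELength_eq_lintegral_mfderiv_Icc]
  refine (enorm_sub_le_lintegral_derivWithin_Icc_of_contDiffOn_Icc hf' zero_le_one).trans ?_
  apply setLIntegral_mono' measurableSet_Icc (fun t ht ↦ ?_)
  have hd : derivWithin f (Icc 0 1) t = deriv f t :=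
    ((contMDiff_iff_contDiff.1 hf).differentiable one_ne_zero t).derivWithin
      (uniqueDiffOn_Icc zero_lt_one t ht)
  have h2 : mfderiv 𝓘(ℝ, ℝ) 𝓘(ℝ, ℝ) f t =
      (mfderiv 𝓘(ℝ, E) 𝓘(ℝ, ℝ) h (γ t)).comp (mfderiv 𝓘(ℝ, ℝ) 𝓘(ℝ, E) γ t) :=
    mfderiv_comp t (hh.mdifferentiable one_ne_zero (γ t)) (γ_smooth.mdifferentiable one_ne_zero t)
  have h3 : (deriv f t : ℝ) = (mfderiv 𝓘(ℝ, E) 𝓘(ℝ, ℝ) h (γ t)
      (mfderiv 𝓘(ℝ, ℝ) 𝓘(ℝ, E) γ t (1 : ℝ)) : ℝ) := by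
    have h4 : (deriv f t : ℝ) = (mfderiv 𝓘(ℝ, ℝ) 𝓘(ℝ, ℝ) f t (1 : ℝ) : ℝ) := by
      rw [mfderiv_eq_fderiv]
      rfl
    rw [h4, h2]
    rfl
  rw [hd, h3]
  exact hb _ _

end Pool.Agent.H65
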