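import Pool.Agent.H65.HeisKahler
import Pool.Agent.H65.LipschitzRiem

/-!
# The metric on the quotient is complete
-/

namespace Pool.Agent.H65

open Topology Set Manifold ContDiff Bundle Filter

namespace Heis

/-- The function on the quotient defined by an invariant function. -/
noncomputable def liftF (H : V → ℝ) (x : Q) : ℝ := H (base x)

lemma liftF_proj {H : V → ℝ} (hH : ∀ (g : Heis) (e : V), H (g • e) = H e) (e : V) :
    liftF H (proj e) = H e := by
  obtain ⟨g, hg⟩ := exists_smul_of_proj_eq (proj_base (proj e))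
  unfold liftF
  rw [hg, hH]

lemma liftF_comp_proj {H : V → ℝ} (hH : ∀ (g : Heis) (e : V), H (g • e) = H e) :
    liftF H ∘ proj = H := funext fun e => liftF_proj hH e

lemma contMDiff_liftF {H : V → ℝ} (hH : ∀ (g : Heis) (e : V), H (g • e) = H e)
    (hs : ContDiff ℝ 1 H) : ContMDiff 𝓘(ℝ, V) 𝓘(ℝ, ℝ) 1 (liftF H) := by
  intro x₀
  have h1 : ContMDiffAt 𝓘(ℝ, V) 𝓘(ℝ, ℝ) 1 (fun x : Q => H (chart x₀ x)) x₀ :=
    (hs.contMDiff.contMDiffAt).comp x₀ contMDiffAt_extChartAt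
  refine h1.congr_of_eventuallyEq ?_
  have h2 : (chartAt V x₀).source ∈ 𝓝 x₀ := chart_source_mem_nhds V x₀
  filter_upwards [h2] with x hx
  have h3 : proj (chart x₀ x) = x := by
    have := (chart x₀).left_inv hx
    rwa [chart_symm_coe] at this
  rw [← liftF_proj hH (chart x₀ x), h3]

lemma mfderiv_liftF {H : V → ℝ} (hH : ∀ (g : Heis) (e : V), H (g • e) = H e)
    (hs : ContDiff ℝ 1 H) (x : Q) (v : V) :
    (mfderiv 𝓘(ℝ, V) 𝓘(ℝ, ℝ) (liftF H) x v : ℝ) = fderiv ℝ H (base x) v := by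
  have hd : MDifferentiableAt 𝓘(ℝ, V) 𝓘(ℝ, ℝ) (liftF H) x :=
    (contMDiff_liftF hH hs).mdifferentiable one_ne_zero x
  have key : fderivWithin ℝ (writtenInExtChartAt 𝓘(ℝ, V) 𝓘(ℝ, ℝ) x (liftF H)) (range 𝓘(ℝ, V))
      ((extChartAt 𝓘(ℝ, V) x) x) = fderiv ℝ H (base x) := by
    rw [show range 𝓘(ℝ, V) = univ by simp, fderivWithin_univ]
    have h1 : writtenInExtChartAt 𝓘(ℝ, V) 𝓘(ℝ, ℝ) x (liftF H) = H := by
      unfold writtenInExtChartAt
      rw [extChartAt_symm_coe]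
      simp only [mfld_simps]
      exact liftF_comp_proj hH
    have h2 : (extChartAt 𝓘(ℝ, V) x) x = base x := by
      simp only [mfld_simps]
      exact chart_self x
    rw [h1, h2]
  rw [mfderiv, if_pos hd]
  exact congrArg (fun L : V →L[ℝ] ℝ => L v) key

section

noncomputable local instance instRB : RiemannianBundle (fun x : Q => TangentSpace 𝓘(ℝ, V) x) :=
  ⟨metricQ.toContinuousRiemannianMetric.toRiemannianMetric⟩

lemma norm_sq_tangent (x : Q) (v : TangentSpace 𝓘(ℝ, V) x) : ‖v‖ ^ 2 = gtf (base x) v v := by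
  rw [← real_inner_self_eq_norm_sq]
  rfl

lemma lipschitz_liftF {H : V → ℝ} (hH : ∀ (g : Heis) (e : V), H (g • e) = H e)
    (hs : ContDiff ℝ 1 H) (hb : ∀ e v : V, (fderiv ℝ H e v) ^ 2 ≤ gtf e v v) (x y : Q) :
    edist (liftF H x) (liftF H y) ≤ riemannianEDist 𝓘(ℝ, V) x y := by
  refine edist_le_riemannianEDist (contMDiff_liftF hH hs) ?_ x y
  intro x v
  have h1 : (mfderiv 𝓘(ℝ, V) 𝓘(ℝ, ℝ) (liftF H) x v : ℝ) = fderiv ℝ H (base x) v :=
    mfderiv_liftF hH hs x v
  have h2 : @enorm ℝ _ (fderiv ℝ H (base x) v) ≤ ‖v‖ₑ := by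
    have h3 : |fderiv ℝ H (base x) v| ≤ ‖v‖ := by
      refine abs_le_of_sq_le_sq ?_ (norm_nonneg v)
      rw [norm_sq_tangent]
      exact hb _ _
    rw [← ofReal_norm, ← ofReal_norm]
    exact ENNReal.ofReal_le_ofReal h3
  exact (congrArg (@enorm ℝ _) h1).trans_le h2

/-- First Lipschitz function. -/
noncomputable def H1 (e : V) : ℝ := e.1.im

/-- Second Lipschitz function. -/
noncomputable def H2 (e : V) : ℝ := e.2.1.im

/-- Third Lipschitz function. -/
noncomputable def H3 (e : V) : ℝ := Real.arsinh (tt e)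

lemma H1_smul (g : Heis) (e : V) : H1 (g • e) = H1 e := by simp [H1]

lemma H2_smul (g : Heis) (e : V) : H2 (g • e) = H2 e := by simp [H2]

lemma H3_smul (g : Heis) (e : V) : H3 (g • e) = H3 e := by rw [H3, H3, tt_smul]

lemma contDiff_H1 : ContDiff ℝ ω H1 := by
  unfold H1
  exact contDiff_im'.comp (by fun_prop)

lemma contDiff_H2 : ContDiff ℝ ω H2 := by
  unfold H2
  exact contDiff_im'.comp (by fun_prop)

lemma contDiff_H3 : ContDiff ℝ 1 H3 := by
  unfold H3
  exact Real.contDiff_arsinh.comp (contDiff_tt.of_le le_top)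

lemma fderiv_H1 (e v : V) : fderiv ℝ H1 e v = v.1.im := by
  have h1 : HasDerivAt (fun s : ℝ => H1 (e + s • v)) (fderiv ℝ H1 e v) 0 :=
    ((contDiff_H1.differentiable (by simp)) e).hasFDerivAt.hasLineDerivAt v
  have h2 : HasDerivAt (fun s : ℝ => H1 (e + s • v)) (v.1.im) 0 := by
    have h : (fun s : ℝ => H1 (e + s • v)) = fun s => e.1.im + s * v.1.im := by
      funext s; simp [H1]
    rw [h]
    simpa using ((hasDerivAt_id (0 : ℝ)).mul_const v.1.im).const_add e.1.im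
  exact h1.unique h2

lemma fderiv_H2 (e v : V) : fderiv ℝ H2 e v = v.2.1.im := by
  have h1 : HasDerivAt (fun s : ℝ => H2 (e + s • v)) (fderiv ℝ H2 e v) 0 :=
    ((contDiff_H2.differentiable (by simp)) e).hasFDerivAt.hasLineDerivAt v
  have h2 : HasDerivAt (fun s : ℝ => H2 (e + s • v)) (v.2.1.im) 0 := by
    have h : (fun s : ℝ => H2 (e + s • v)) = fun s => e.2.1.im + s * v.2.1.im := by
      funext s; simp [H2]
    rw [h]
    simpa using ((hasDerivAt_id (0 : ℝ)).mul_const v.2.1.im).const_add e.2.1.im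
  exact h1.unique h2

lemma fderiv_H3 (e v : V) : fderiv ℝ H3 e v = (Real.sqrt (1 + tt e ^ 2))⁻¹ * thI e v := by
  have h1 : HasDerivAt (fun s : ℝ => H3 (e + s • v)) (fderiv ℝ H3 e v) 0 :=
    ((contDiff_H3.differentiable one_ne_zero) e).hasFDerivAt.hasLineDerivAt v
  have h2 : HasDerivAt (fun s : ℝ => H3 (e + s • v))
      ((Real.sqrt (1 + tt e ^ 2))⁻¹ * thI e v) 0 := by
    have h3 := (hasDerivAt_tt e v)
    have h5 := h3.arsinh
    simp only [zero_smul, add_zero, smul_eq_mul] at h5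
    exact h5
  exact h1.unique h2

lemma bound_H1 (e v : V) : (fderiv ℝ H1 e v) ^ 2 ≤ gtf e v v := by
  rw [fderiv_H1]
  refine le_trans ?_ (gtf_self_ge e v)
  have h2 : 0 ≤ (thR e v ^ 2 + thI e v ^ 2) / (1 + tt e ^ 2) :=
    div_nonneg (by positivity) (one_add_sq_pos _).le
  nlinarith [sq_nonneg v.1.re, sq_nonneg v.1.im, sq_nonneg v.2.1.re, sq_nonneg v.2.1.im]

lemma bound_H2 (e v : V) : (fderiv ℝ H2 e v) ^ 2 ≤ gtf e v v := by
  rw [fderiv_H2]
  refine le_trans ?_ (gtf_self_ge e v)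
  have h2 : 0 ≤ (thR e v ^ 2 + thI e v ^ 2) / (1 + tt e ^ 2) :=
    div_nonneg (by positivity) (one_add_sq_pos _).le
  nlinarith [sq_nonneg v.1.re, sq_nonneg v.1.im, sq_nonneg v.2.1.re, sq_nonneg v.2.1.im]

lemma bound_H3 (e v : V) : (fderiv ℝ H3 e v) ^ 2 ≤ gtf e v v := by
  rw [fderiv_H3]
  refine le_trans ?_ (gtf_self_ge e v)
  rw [mul_pow, inv_pow, Real.sq_sqrt (one_add_sq_pos _).le]
  have h1 : 0 ≤ 2 * (v.1.re ^ 2 + v.1.im ^ 2 + v.2.1.re ^ 2 + v.2.1.im ^ 2) := by positivity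
  have h2 : (1 + tt e ^ 2)⁻¹ * thI e v ^ 2 ≤ (thR e v ^ 2 + thI e v ^ 2) / (1 + tt e ^ 2) := by
    rw [div_eq_inv_mul]
    refine mul_le_mul_of_nonneg_left ?_ (inv_nonneg.2 (one_add_sq_pos _).le)
    have := sq_nonneg (thR e v)
    linarith
  linarith

/-- Reduction to a bounded set. -/
lemma exists_smul_norm_le (e : V) : ∃ g : Heis, ‖g • e‖ ≤ 1 + |H1 e| + |H2 e| + |tt e| := by
  let a : ℤ := -⌊e.1.re⌋
  let b : ℤ := -⌊e.2.1.re⌋
  let c : ℤ := -⌊e.2.2.re + a * e.2.1.re⌋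
  let g : Heis := ⟨a, b, c⟩
  refine ⟨g, ?_⟩
  have h0 : tt (g • e) = tt e := tt_smul g e
  have hx : |(g • e).1.re| ≤ 1 := by
    have h1 : (g • e).1.re = Int.fract e.1.re := by
      have h2 : (g • e).1.re = e.1.re + ((a : ℤ) : ℝ) := by simp [g]
      rw [h2, ← Int.self_sub_floor]
      simp only [a, Int.cast_neg]
      ring
    rw [h1, abs_of_nonneg (Int.fract_nonneg _)]
    exact (Int.fract_lt_one _).le
  have hy : |(g • e).2.1.re| ≤ 1 := by
    have h1 : (g • e).2.1.re = Int.fract e.2.1.re := by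
      have h2 : (g • e).2.1.re = e.2.1.re + ((b : ℤ) : ℝ) := by simp [g]
      rw [h2, ← Int.self_sub_floor]
      simp only [b, Int.cast_neg]
      ring
    rw [h1, abs_of_nonneg (Int.fract_nonneg _)]
    exact (Int.fract_lt_one _).le
  have hz : |(g • e).2.2.re| ≤ 1 := by
    have h1 : (g • e).2.2.re = Int.fract (e.2.2.re + a * e.2.1.re) := by
      have h2 : (g • e).2.2.re = e.2.2.re + ((c : ℤ) : ℝ) + ((a : ℤ) : ℝ) * e.2.1.re := by
        simp [g]
      rw [h2, ← Int.self_sub_floor]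
      simp only [c, Int.cast_neg]
      ring
    rw [h1, abs_of_nonneg (Int.fract_nonneg _)]
    exact (Int.fract_lt_one _).le
  have hxi : (g • e).1.im = H1 e := by simp [H1]
  have hyi : (g • e).2.1.im = H2 e := by simp [H2]
  have hzi : |(g • e).2.2.im| ≤ |tt e| + |H2 e| := by
    have h1 : (g • e).2.2.im = tt (g • e) + (g • e).1.re * (g • e).2.1.im := by
      simp only [tt]; ring
    rw [h1, h0, hyi]
    calc |tt e + (g • e).1.re * H2 e| ≤ |tt e| + |(g • e).1.re * H2 e| := abs_add_le _ _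
      _ = |tt e| + |(g • e).1.re| * |H2 e| := by rw [abs_mul]
      _ ≤ |tt e| + 1 * |H2 e| := by gcongr
      _ = _ := by ring
  have p1 := abs_nonneg (H1 e)
  have p2 := abs_nonneg (H2 e)
  have p3 := abs_nonneg (tt e)
  have n1 : ‖(g • e).1‖ ≤ 1 + |H1 e| + |H2 e| + |tt e| := by
    refine (Complex.norm_le_abs_re_add_abs_im _).trans ?_
    rw [hxi]; linarith
  have n2 : ‖(g • e).2.1‖ ≤ 1 + |H1 e| + |H2 e| + |tt e| := by
    refine (Complex.norm_le_abs_re_add_abs_im _).trans ?_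
    rw [hyi]; linarith
  have n3 : ‖(g • e).2.2‖ ≤ 1 + |H1 e| + |H2 e| + |tt e| := by
    refine (Complex.norm_le_abs_re_add_abs_im _).trans ?_
    linarith
  rw [Prod.norm_def, Prod.norm_def]
  exact max_le n1 (max_le n2 n3)

lemma abs_tt_le {e : V} {S : ℝ} (h : |H3 e| ≤ S) : |tt e| ≤ Real.sinh S := by
  have h1 : tt e = Real.sinh (H3 e) := by rw [H3, Real.sinh_arsinh]
  rw [h1, Real.abs_sinh]
  exact Real.sinh_le_sinh.2 h

lemma mem_compact {x : Q} {R : ℝ} (h1 : |liftF H1 x| ≤ R) (h2 : |liftF H2 x| ≤ R)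
    (h3 : |liftF H3 x| ≤ R) :
    x ∈ proj '' Metric.closedBall (0 : V) (1 + R + R + Real.sinh R) := by
  obtain ⟨g, hg⟩ := exists_smul_norm_le (base x)
  refine ⟨g • base x, ?_, ?_⟩
  · rw [mem_closedBall_zero_iff]
    refine hg.trans ?_
    have h4 : |tt (base x)| ≤ Real.sinh R := abs_tt_le h3
    have h1' : |H1 (base x)| ≤ R := h1
    have h2' : |H2 (base x)| ≤ R := h2
    linarith
  · rw [proj_smul, proj_base]

end

lemma isComplete_metricQ : IsCompleteMetric metricQ := by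
  unfold IsCompleteMetric
  let : RiemannianBundle (fun x : Q => TangentSpace 𝓘(ℝ, V) x) :=
    ⟨metricQ.toContinuousRiemannianMetric.toRiemannianMetric⟩
  let : EMetricSpace Q := EMetricSpace.ofRiemannianMetric 𝓘(ℝ, V) Q
  have key : ∀ {H : V → ℝ}, (∀ (g : Heis) (e : V), H (g • e) = H e) → ContDiff ℝ 1 H →
      (∀ e v : V, (fderiv ℝ H e v) ^ 2 ≤ gtf e v v) → LipschitzWith 1 (liftF H) := by
    intro H hH hs hb x y
    rw [ENNReal.coe_one, one_mul]
    exact lipschitz_liftF hH hs hb x y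
  have L1 : LipschitzWith 1 (liftF H1) := key H1_smul (contDiff_H1.of_le le_top) bound_H1
  have L2 : LipschitzWith 1 (liftF H2) := key H2_smul (contDiff_H2.of_le le_top) bound_H2
  have L3 : LipschitzWith 1 (liftF H3) := key H3_smul contDiff_H3 bound_H3
  refine ⟨fun {f} hf => ?_⟩
  have bdd : ∀ {h : Q → ℝ}, LipschitzWith 1 h → ∃ R : ℝ, ∀ᶠ x in f, |h x| ≤ R := by
    intro h hh
    have hc : Cauchy (Filter.map h f) := hf.map hh.uniformContinuous
    obtain ⟨l, hl⟩ := CompleteSpace.complete hc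
    have ht : Tendsto h f (𝓝 l) := hl
    refine ⟨|l| + 1, ?_⟩
    have h1 : ∀ᶠ x in f, |h x| < |l| + 1 :=
      (ht.abs).eventually_lt_const (by linarith)
    exact h1.mono fun x hx => hx.le
  obtain ⟨R1, hR1⟩ := bdd L1
  obtain ⟨R2, hR2⟩ := bdd L2
  obtain ⟨R3, hR3⟩ := bdd L3
  let R := max R1 (max R2 R3)
  let K : Set Q := proj '' Metric.closedBall (0 : V) (1 + R + R + Real.sinh R)
  have hKf : K ∈ f := by
    filter_upwards [hR1, hR2, hR3] with x h1 h2 h3
    exact mem_compact (h1.trans (le_max_left _ _))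
      (h2.trans ((le_max_left _ _).trans (le_max_right _ _)))
      (h3.trans ((le_max_right _ _).trans (le_max_right _ _)))
  have hKc : IsCompact K := (isCompact_closedBall (0 : V) _).image isLocalHomeo.continuous
  obtain ⟨x, -, hx⟩ := hKc.isComplete f hf (le_principal_iff.2 hKf)
  exact ⟨x, hx⟩

end Heis

end Pool.Agent.H65
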