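import Pool.Agent.H65.HeisComplete

/-!
# Closed copies of the punctured plane in the quotient
-/

namespace Pool.Agent.H65

open Topology Set Manifold ContDiff Filter

namespace Heis

/-- `log u / (2 π i)`. -/
noncomputable def lg (u : ℂˣ) : ℂ := Complex.log u / (2 * Real.pi * Complex.I)

lemma two_pi_I_ne : (2 * Real.pi * Complex.I : ℂ) ≠ 0 := Complex.two_pi_I_ne_zero

lemma exp_lg (u : ℂˣ) : Complex.exp (2 * Real.pi * Complex.I * lg u) = u := by
  rw [lg, mul_div_cancel₀ _ two_pi_I_ne, Complex.exp_log u.ne_zero]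

lemma exp_eq_exp {s s' : ℂ}
    (h : Complex.exp (2 * Real.pi * Complex.I * s) = Complex.exp (2 * Real.pi * Complex.I * s')) :
    ∃ n : ℤ, s = s' + n := by
  rw [Complex.exp_eq_exp_iff_exists_int] at h
  obtain ⟨n, hn⟩ := h
  refine ⟨n, ?_⟩
  have h1 : (2 * Real.pi * Complex.I) * s = (2 * Real.pi * Complex.I) * (s' + n) := by
    rw [hn]; ring
  exact mul_left_cancel₀ two_pi_I_ne h1

lemma exp_add_int (s : ℂ) (n : ℤ) :
    Complex.exp (2 * Real.pi * Complex.I * (s + n)) = Complex.exp (2 * Real.pi * Complex.I * s) := by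
  rw [Complex.exp_eq_exp_iff_exists_int]
  exact ⟨n, by ring⟩

lemma lg_im (u : ℂˣ) : (lg u).im = -(Real.log ‖(u : ℂ)‖ / (2 * Real.pi)) := by
  have h : lg u = -(Complex.I * Complex.log u) / ((2 * Real.pi : ℝ) : ℂ) := by
    rw [lg]
    have hI : Complex.I ≠ 0 := Complex.I_ne_zero
    have hpi : (Real.pi : ℂ) ≠ 0 := by exact_mod_cast Real.pi_ne_zero
    push_cast
    field_simp
    rw [Complex.I_sq]
    ring
  rw [h, Complex.div_ofReal_im]
  simp [Complex.log_re]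
  ring

/-- The curve with the parametrisation `A`. -/
noncomputable def curve (A : ℂ → V) (u : ℂˣ) : Q := proj (A (lg u))

variable {A : ℂ → V}

lemma curve_eq (hper : ∀ (s : ℂ) (n : ℤ), proj (A (s + n)) = proj (A s)) {u : ℂˣ} {s : ℂ}
    (hs : Complex.exp (2 * Real.pi * Complex.I * s) = u) : curve A u = proj (A s) := by
  obtain ⟨n, hn⟩ := exp_eq_exp ((exp_lg u).trans hs.symm)
  rw [curve, hn, hper]

lemma contMDiff_curve (hA : ContDiff ℂ ω A)
    (hper : ∀ (s : ℂ) (n : ℤ), proj (A (s + n)) = proj (A s)) :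
    ContMDiff 𝓘(ℂ, ℂ) 𝓘(ℂ, V) ω (curve A) := by
  intro u₀
  let L : ℂ → ℂ := fun z => lg u₀ + Complex.log (z / u₀) / (2 * Real.pi * Complex.I)
  have hL : ContDiffAt ℂ ω L u₀ := by
    have h1 : ContDiffAt ℂ ω (fun z : ℂ => Complex.log (z / u₀)) u₀ := by
      have h0 : ContDiffAt ℂ ω Complex.log ((u₀ : ℂ) / u₀) := by
        refine Complex.contDiffAt_log ?_
        rw [div_self u₀.ne_zero]
        exact Complex.one_mem_slitPlane
      have h1 : ContDiffAt ℂ ω (fun z : ℂ => z / (u₀ : ℂ)) (u₀ : ℂ) := contDiffAt_id.div_const _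
      exact ContDiffAt.comp (f := fun z : ℂ => z / (u₀ : ℂ)) (u₀ : ℂ) h0 h1
    exact contDiffAt_const.add (h1.div_const _)
  have hcomp : ContMDiffAt 𝓘(ℂ, ℂ) 𝓘(ℂ, V) ω (fun u : ℂˣ => proj (A (L (u : ℂ)))) u₀ := by
    have h1 : ContMDiffAt 𝓘(ℂ, ℂ) 𝓘(ℂ, ℂ) ω (fun u : ℂˣ => L (u : ℂ)) u₀ :=
      (hL.contMDiffAt).comp u₀ (Units.contMDiff_val u₀)
    have h2 : ContMDiffAt 𝓘(ℂ, ℂ) 𝓘(ℂ, V) ω (fun u : ℂˣ => A (L (u : ℂ))) u₀ :=
      (hA.contMDiff.contMDiffAt).comp u₀ h1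
    exact (contMDiff_proj_complex.contMDiffAt).comp u₀ h2
  refine hcomp.congr_of_eventuallyEq (Eventually.of_forall fun u => ?_)
  refine curve_eq hper ?_
  have h3 : 2 * Real.pi * Complex.I * L u =
      2 * Real.pi * Complex.I * lg u₀ + Complex.log ((u : ℂ) / u₀) := by
    simp only [L]
    rw [mul_add, mul_div_cancel₀ _ two_pi_I_ne]
  rw [h3, Complex.exp_add, exp_lg, Complex.exp_log (div_ne_zero u.ne_zero u₀.ne_zero),
    mul_div_cancel₀ _ u₀.ne_zero]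

lemma isCompact_annulus (M : ℝ) :
    IsCompact {u : ℂˣ | Real.exp (-M) ≤ ‖(u : ℂ)‖ ∧ ‖(u : ℂ)‖ ≤ Real.exp M} := by
  rw [Units.isEmbedding_val₀.isCompact_iff]
  have h : (Units.val '' {u : ℂˣ | Real.exp (-M) ≤ ‖(u : ℂ)‖ ∧ ‖(u : ℂ)‖ ≤ Real.exp M}) =
      {z : ℂ | Real.exp (-M) ≤ ‖z‖} ∩ Metric.closedBall 0 (Real.exp M) := by
    ext z
    constructor
    · rintro ⟨u, ⟨h1, h2⟩, rfl⟩
      exact ⟨h1, by rwa [mem_closedBall_zero_iff]⟩
    · rintro ⟨h1, h2⟩
      rw [mem_closedBall_zero_iff] at h2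
      have hz : z ≠ 0 := by
        intro h0
        have h1' : Real.exp (-M) ≤ ‖z‖ := h1
        rw [h0, norm_zero] at h1'
        exact absurd h1' (not_le.2 (Real.exp_pos _))
      exact ⟨Units.mk0 z hz, ⟨h1, h2⟩, rfl⟩
  rw [h]
  exact (isCompact_closedBall (0 : ℂ) _).inter_left
    (isClosed_le continuous_const continuous_norm)

lemma isClosedEmbedding_curve (hA : ContDiff ℂ ω A)
    (hper : ∀ (s : ℂ) (n : ℤ), proj (A (s + n)) = proj (A s))
    (hinj : ∀ s s' : ℂ, proj (A s) = proj (A s') → ∃ n : ℤ, s = s' + n)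
    {h : Q → ℝ} (hc : Continuous h) {c : ℝ} (hh : ∀ s : ℂ, h (proj (A s)) = s.im + c) :
    IsClosedEmbedding (curve A) := by
  have hcont : Continuous (curve A) := (contMDiff_curve hA hper).continuous
  have hproper : IsProperMap (curve A) := by
    rw [isProperMap_iff_isCompact_preimage]
    refine ⟨hcont, fun K hK => ?_⟩
    obtain ⟨R, hR⟩ := (hK.image hc).isBounded.exists_norm_le
    refine (isCompact_annulus (2 * Real.pi * (R + |c|))).of_isClosed_subset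
      (hK.isClosed.preimage hcont) ?_
    intro u hu
    have h1 : |h (curve A u)| ≤ R := hR _ ⟨_, hu, rfl⟩
    have h2 : h (curve A u) = (lg u).im + c := hh _
    rw [h2] at h1
    have h3 : |(lg u).im| ≤ R + |c| := by
      have := abs_sub ((lg u).im + c) c
      rw [add_sub_cancel_right] at this
      linarith
    rw [lg_im, abs_neg, abs_div, abs_of_pos (by positivity : (0 : ℝ) < 2 * Real.pi),
      div_le_iff₀ (by positivity : (0 : ℝ) < 2 * Real.pi)] at h3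
    have h4 := abs_le.1 h3
    have hu0 : 0 < ‖(u : ℂ)‖ := norm_pos_iff.2 u.ne_zero
    constructor
    · rw [← Real.le_log_iff_exp_le hu0]; linarith [h4.1]
    · rw [← Real.log_le_iff_le_exp hu0]; linarith [h4.2]
  refine IsClosedEmbedding.of_continuous_injective_isClosedMap hcont ?_ hproper.isClosedMap
  intro u u' huu
  obtain ⟨n, hn⟩ := hinj _ _ huu
  have h5 := exp_add_int (lg u') n
  rw [← hn, exp_lg, exp_lg] at h5
  exact Units.ext h5

lemma continuous_liftF {H : V → ℝ} (hH : ∀ (g : Heis) (e : V), H (g • e) = H e)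
    (hs : ContDiff ℝ 1 H) : Continuous (liftF H) := (contMDiff_liftF hH hs).continuous

lemma smul_eq_iff (g : Heis) (e e' : V) : e = g • e' ↔
    e.1 = e'.1 + g.a ∧ e.2.1 = e'.2.1 + g.b ∧ e.2.2 = e'.2.2 + g.c + g.a * e'.2.1 := by
  rw [smul_def, Prod.ext_iff, Prod.ext_iff]

/-- Curves in the first direction. -/
noncomputable def A1 (e : V) (s : ℂ) : V := (s, e.2.1, e.2.2 + e.2.1 * (s - e.1))

/-- Curves in the second direction. -/
noncomputable def A2 (e : V) (s : ℂ) : V := (e.1, s, e.2.2)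

/-- Curves in the third direction. -/
noncomputable def A3 (e : V) (s : ℂ) : V := (e.1, e.2.1, s)

lemma A1_closed (e : V) : ContMDiff 𝓘(ℂ, ℂ) 𝓘(ℂ, V) ω (curve (A1 e)) ∧
    IsClosedEmbedding (curve (A1 e)) ∧ ∀ s, proj (A1 e s) ∈ range (curve (A1 e)) := by
  have hA : ContDiff ℂ ω (A1 e) := by unfold A1; fun_prop
  have hper : ∀ (s : ℂ) (n : ℤ), proj (A1 e (s + n)) = proj (A1 e s) := by
    intro s n
    rw [← proj_smul ⟨n, 0, 0⟩ (A1 e s)]
    congr 1
    rw [smul_eq_iff]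
    simp only [A1]
    refine ⟨by simp, by simp, by push_cast; ring⟩
  have hinj : ∀ s s' : ℂ, proj (A1 e s) = proj (A1 e s') → ∃ n : ℤ, s = s' + n := by
    intro s s' h
    obtain ⟨g, hg⟩ := exists_smul_of_proj_eq h
    rw [smul_eq_iff] at hg
    exact ⟨g.a, hg.1⟩
  have hh : ∀ s : ℂ, liftF H1 (proj (A1 e s)) = s.im + 0 := by
    intro s
    rw [liftF_proj H1_smul]
    simp [H1, A1]
  refine ⟨contMDiff_curve hA hper, isClosedEmbedding_curve hA hper hinj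
    (continuous_liftF H1_smul (contDiff_H1.of_le le_top)) hh, fun s => ?_⟩
  exact ⟨Units.mk0 (Complex.exp (2 * Real.pi * Complex.I * s)) (Complex.exp_ne_zero _),
    curve_eq hper rfl⟩

lemma A2_closed (e : V) : ContMDiff 𝓘(ℂ, ℂ) 𝓘(ℂ, V) ω (curve (A2 e)) ∧
    IsClosedEmbedding (curve (A2 e)) ∧ ∀ s, proj (A2 e s) ∈ range (curve (A2 e)) := by
  have hA : ContDiff ℂ ω (A2 e) := by unfold A2; fun_prop
  have hper : ∀ (s : ℂ) (n : ℤ), proj (A2 e (s + n)) = proj (A2 e s) := by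
    intro s n
    rw [← proj_smul ⟨0, n, 0⟩ (A2 e s)]
    congr 1
    rw [smul_eq_iff]
    simp only [A2]
    refine ⟨by simp, by simp, by simp⟩
  have hinj : ∀ s s' : ℂ, proj (A2 e s) = proj (A2 e s') → ∃ n : ℤ, s = s' + n := by
    intro s s' h
    obtain ⟨g, hg⟩ := exists_smul_of_proj_eq h
    rw [smul_eq_iff] at hg
    exact ⟨g.b, hg.2.1⟩
  have hh : ∀ s : ℂ, liftF H2 (proj (A2 e s)) = s.im + 0 := by
    intro s
    rw [liftF_proj H2_smul]
    simp [H2, A2]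
  refine ⟨contMDiff_curve hA hper, isClosedEmbedding_curve hA hper hinj
    (continuous_liftF H2_smul (contDiff_H2.of_le le_top)) hh, fun s => ?_⟩
  exact ⟨Units.mk0 (Complex.exp (2 * Real.pi * Complex.I * s)) (Complex.exp_ne_zero _),
    curve_eq hper rfl⟩

lemma A3_closed (e : V) : ContMDiff 𝓘(ℂ, ℂ) 𝓘(ℂ, V) ω (curve (A3 e)) ∧
    IsClosedEmbedding (curve (A3 e)) ∧ ∀ s, proj (A3 e s) ∈ range (curve (A3 e)) := by
  have hA : ContDiff ℂ ω (A3 e) := by unfold A3; fun_prop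
  have hper : ∀ (s : ℂ) (n : ℤ), proj (A3 e (s + n)) = proj (A3 e s) := by
    intro s n
    rw [← proj_smul ⟨0, 0, n⟩ (A3 e s)]
    congr 1
    rw [smul_eq_iff]
    simp only [A3]
    refine ⟨by simp, by simp, by simp⟩
  have hinj : ∀ s s' : ℂ, proj (A3 e s) = proj (A3 e s') → ∃ n : ℤ, s = s' + n := by
    intro s s' h
    obtain ⟨g, hg⟩ := exists_smul_of_proj_eq h
    rw [smul_eq_iff] at hg
    obtain ⟨h1, h2, h3⟩ := hg
    have ha : (g.a : ℂ) = 0 := by simpa [A3] using h1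
    refine ⟨g.c, ?_⟩
    rw [ha] at h3
    simpa [A3] using h3
  have hh : ∀ s : ℂ, liftF tt (proj (A3 e s)) = s.im + (-(e.1.re * e.2.1.im)) := by
    intro s
    rw [liftF_proj tt_smul]
    simp [tt, A3]
    ring
  refine ⟨contMDiff_curve hA hper, isClosedEmbedding_curve hA hper hinj
    (continuous_liftF tt_smul (contDiff_tt.of_le le_top)) hh, fun s => ?_⟩
  exact ⟨Units.mk0 (Complex.exp (2 * Real.pi * Complex.I * s)) (Complex.exp_ne_zero _),
    curve_eq hper rfl⟩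

/-- Any two points are joined by a chain of three closed copies of the punctured plane. -/
theorem exists_chain (x y : Q) : ∃ f₁ f₂ f₃ : ℂˣ → Q,
    (ContMDiff 𝓘(ℂ, ℂ) 𝓘(ℂ, V) ω f₁ ∧ IsClosedEmbedding f₁) ∧
    (ContMDiff 𝓘(ℂ, ℂ) 𝓘(ℂ, V) ω f₂ ∧ IsClosedEmbedding f₂) ∧
    (ContMDiff 𝓘(ℂ, ℂ) 𝓘(ℂ, V) ω f₃ ∧ IsClosedEmbedding f₃) ∧
    x ∈ range f₁ ∧ (range f₁ ∩ range f₂).Nonempty ∧ (range f₂ ∩ range f₃).Nonempty ∧
    y ∈ range f₃ := by
  set e := base x with he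
  set e' := base y with he'
  let e1 : V := A1 e e'.1
  let e2 : V := A2 e1 e'.2.1
  obtain ⟨a1, b1, c1⟩ := A1_closed e
  obtain ⟨a2, b2, c2⟩ := A2_closed e1
  obtain ⟨a3, b3, c3⟩ := A3_closed e2
  refine ⟨curve (A1 e), curve (A2 e1), curve (A3 e2), ⟨a1, b1⟩, ⟨a2, b2⟩, ⟨a3, b3⟩, ?_, ?_, ?_, ?_⟩
  · have h := c1 e.1
    have h2 : A1 e e.1 = e := by simp [A1]
    rwa [h2, he, proj_base] at h
  · refine ⟨proj e1, c1 e'.1, ?_⟩
    have h := c2 e1.2.1
    have h2 : A2 e1 e1.2.1 = e1 := by simp [A2]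
    rwa [h2] at h
  · refine ⟨proj e2, c2 e'.2.1, ?_⟩
    have h := c3 e2.2.2
    have h2 : A3 e2 e2.2.2 = e2 := by simp [A3]
    rwa [h2] at h
  · have h := c3 e'.2.2
    have h2 : A3 e2 e'.2.2 = e' := by simp [A3, e2, A2, e1, A1]
    rwa [h2, he', proj_base] at h

end Heis

end Pool.Agent.H65
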