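import Mathlib

/-!
# Complete Kaehler metrics on complex manifolds
-/

namespace Pool.Agent.H65

open Manifold ContDiff Bundle

section Kahler

variable {E : Type} [NormedAddCommGroup E] [NormedSpace ℝ E]
  {X : Type} [TopologicalSpace X] [ChartedSpace E X] [IsManifold 𝓘(ℝ, E) ∞ X]

/-- The expression of a smooth Riemannian metric `g` on `X` in the chart `ψ`, at the point `e` of
the target of `ψ`, evaluated at the vectors `v` and `w`. -/
noncomputable def metricInChart
    (g : ContMDiffRiemannianMetric 𝓘(ℝ, E) ∞ E (fun x : X => TangentSpace 𝓘(ℝ, E) x))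
    (ψ : OpenPartialHomeomorph X E) (e v w : E) : ℝ :=
  g.inner (ψ.symm e) (mfderiv 𝓘(ℝ, E) 𝓘(ℝ, E) ψ.symm e v) (mfderiv 𝓘(ℝ, E) 𝓘(ℝ, E) ψ.symm e w)

/-- A smooth Riemannian metric on a complex manifold is a Kaehler metric: in every chart of the
atlas it is Hermitian (invariant under multiplication by `i`), and its fundamental form
`(v, w) ↦ g (i v, w)` is closed. -/
structure IsKahlerMetric [NormedSpace ℂ E]
    (g : ContMDiffRiemannianMetric 𝓘(ℝ, E) ∞ E (fun x : X => TangentSpace 𝓘(ℝ, E) x)) :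
    Prop where
  hermitian : ∀ ψ ∈ atlas E X, ∀ e ∈ ψ.target, ∀ v w : E,
    metricInChart g ψ e (Complex.I • v) (Complex.I • w) = metricInChart g ψ e v w
  closed : ∀ ψ ∈ atlas E X, ∀ e ∈ ψ.target, ∀ u v w : E,
    fderiv ℝ (fun y => metricInChart g ψ y (Complex.I • v) w) e u +
    fderiv ℝ (fun y => metricInChart g ψ y (Complex.I • w) u) e v +
    fderiv ℝ (fun y => metricInChart g ψ y (Complex.I • u) v) e w = 0

/-- The geodesic distance of the smooth Riemannian metric `g` is complete. -/
def IsCompleteMetric [T3Space X]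
    (g : ContMDiffRiemannianMetric 𝓘(ℝ, E) ∞ E (fun x : X => TangentSpace 𝓘(ℝ, E) x)) : Prop :=
  letI : RiemannianBundle (fun x : X => TangentSpace 𝓘(ℝ, E) x) :=
    ⟨g.toContinuousRiemannianMetric.toRiemannianMetric⟩
  letI : EMetricSpace X := EMetricSpace.ofRiemannianMetric 𝓘(ℝ, E) X
  CompleteSpace X

end Kahler

/-- A group is almost abelian if it has an abelian subgroup of finite index. -/
def AlmostAbelian (G : Type) [Group G] : Prop :=
  ∃ H : Subgroup G, H.FiniteIndex ∧ ∀ a ∈ H, ∀ b ∈ H, a * b = b * a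

end Pool.Agent.H65
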