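import Pool.Agent.H65.HeisManifold
import Pool.Agent.H65.KahlerDefs

/-!
# The fundamental group of the quotient
-/

namespace Pool.Agent.H65

open Topology Set

namespace Heis

/-- The fundamental group of the quotient is the (opposite) integer Heisenberg group. -/
noncomputable def piOneEquiv (x : Q) : FundamentalGroup Q x ≃* Heisᵐᵒᵖ :=
  isCov.fundamentalGroupEquiv (⟨base x, proj_base x⟩ : proj ⁻¹' {x})

lemma not_almostAbelian_of_equiv {G : Type} [Group G] (φ : G ≃* Heisᵐᵒᵖ) : ¬ AlmostAbelian G := by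
  rintro ⟨H, hH, hab⟩
  obtain ⟨n, hn, hnH⟩ := Subgroup.exists_pow_mem_of_index_ne_zero hH.index_ne_zero
    (φ.symm (MulOpposite.op ⟨1, 0, 0⟩))
  obtain ⟨m, hm, hmH⟩ := Subgroup.exists_pow_mem_of_index_ne_zero hH.index_ne_zero
    (φ.symm (MulOpposite.op ⟨0, 1, 0⟩))
  have h1 := hab _ hnH.2 _ hmH.2
  have h2 := congrArg φ h1
  simp only [map_mul, map_pow, MulEquiv.apply_symm_apply] at h2
  have h3 := congrArg MulOpposite.unop h2
  simp only [MulOpposite.unop_mul, MulOpposite.unop_pow, MulOpposite.unop_op] at h3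
  exact not_commute_pow (by omega) (by omega) h3.symm

end Heis

end Pool.Agent.H65
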