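import Pool.Agent.H65.HeisRiem
import Pool.Agent.H65.KahlerDefs

/-!
# The metric on the quotient is a Kaehler metric
-/

namespace Pool.Agent.H65

open Topology Set Manifold ContDiff Bundle

namespace Heis

/-- Derivative of `thR` in direction `u`. -/
noncomputable def thR' (u a : V) : ℝ := u.2.1.im * a.1.im - u.1.re * a.2.1.re

/-- Derivative of `thI` in direction `u`. -/
noncomputable def thI' (u a : V) : ℝ := -(u.2.1.im * a.1.re) - u.1.re * a.2.1.im

lemma hasDerivAt_thR (y u a : V) : HasDerivAt (fun s : ℝ => thR (y + s • u) a) (thR' u a) 0 := by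
  have h : (fun s : ℝ => thR (y + s • u) a) = fun s => thR y a + s * thR' u a := by
    funext s
    simp only [thR, thR', Prod.fst_add, Prod.snd_add, Prod.smul_fst, Prod.smul_snd,
      Complex.add_re, Complex.add_im, Complex.smul_re, Complex.smul_im, smul_eq_mul]
    ring
  rw [h]
  simpa using ((hasDerivAt_id (0 : ℝ)).mul_const (thR' u a)).const_add (thR y a)

lemma hasDerivAt_thI (y u a : V) : HasDerivAt (fun s : ℝ => thI (y + s • u) a) (thI' u a) 0 := by
  have h : (fun s : ℝ => thI (y + s • u) a) = fun s => thI y a + s * thI' u a := by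
    funext s
    simp only [thI, thI', Prod.fst_add, Prod.snd_add, Prod.smul_fst, Prod.smul_snd,
      Complex.add_re, Complex.add_im, Complex.smul_re, Complex.smul_im, smul_eq_mul]
    ring
  rw [h]
  simpa using ((hasDerivAt_id (0 : ℝ)).mul_const (thI' u a)).const_add (thI y a)

lemma hasDerivAt_tt (y u : V) : HasDerivAt (fun s : ℝ => tt (y + s • u)) (thI y u) 0 := by
  have h : (fun s : ℝ => tt (y + s • u)) =
      fun s => tt y + s * thI y u + s ^ 2 * (-(u.1.re * u.2.1.im)) := by
    funext s
    simp only [tt, thI, Prod.fst_add, Prod.snd_add, Prod.smul_fst, Prod.smul_snd,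
      Complex.add_re, Complex.add_im, Complex.smul_re, Complex.smul_im, smul_eq_mul]
    ring
  rw [h]
  have h1 := ((hasDerivAt_id (0 : ℝ)).mul_const (thI y u)).const_add (tt y)
  have h2 := ((hasDerivAt_pow 2 (0 : ℝ)).mul_const (-(u.1.re * u.2.1.im)))
  have h3 := h1.fun_add h2
  simpa using h3

/-- The derivative of the metric in direction `u`. -/
noncomputable def dgtf (y a b u : V) : ℝ :=
  ((thR' u a * thR y b + thR y a * thR' u b + (thI' u a * thI y b + thI y a * thI' u b)) *
      (1 + tt y ^ 2) - (thR y a * thR y b + thI y a * thI y b) * (2 * tt y * thI y u)) /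
      (1 + tt y ^ 2) ^ 2 +
    1 / (1 + tt y ^ 2) * thI y u *
    (a.1.im * b.2.1.re - a.1.re * b.2.1.im + b.1.im * a.2.1.re - b.1.re * a.2.1.im)

lemma fderiv_gtf (y a b u : V) : fderiv ℝ (fun y => gtf y a b) y u = dgtf y a b u := by
  have hd : DifferentiableAt ℝ (fun y => gtf y a b) y :=
    ((contDiff_gtf a b).differentiable (by simp)) y
  have h1 : HasDerivAt (fun s : ℝ => gtf (y + s • u) a b)
      (fderiv ℝ (fun y => gtf y a b) y u) 0 := hd.hasFDerivAt.hasLineDerivAt u
  have hRa := hasDerivAt_thR y u a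
  have hRb := hasDerivAt_thR y u b
  have hIa := hasDerivAt_thI y u a
  have hIb := hasDerivAt_thI y u b
  have ht := hasDerivAt_tt y u
  have hden : HasDerivAt (fun s : ℝ => 1 + tt (y + s • u) ^ 2) (2 * tt y * thI y u) 0 := by
    have := (ht.pow 2).const_add 1
    simpa using this
  have hnum : HasDerivAt (fun s : ℝ => thR (y + s • u) a * thR (y + s • u) b +
      thI (y + s • u) a * thI (y + s • u) b)
      (thR' u a * thR y b + thR y a * thR' u b + (thI' u a * thI y b + thI y a * thI' u b)) 0 := by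
    have := (hRa.fun_mul hRb).fun_add (hIa.fun_mul hIb)
    simpa using this
  have hdiv := hnum.div hden (one_add_sq_pos _).ne'
  have harc : HasDerivAt (fun s : ℝ => Real.arctan (tt (y + s • u)))
      (1 / (1 + tt y ^ 2) * thI y u) 0 := by
    have := ht.arctan
    simpa using this
  have h2 : HasDerivAt (fun s : ℝ => gtf (y + s • u) a b) (dgtf y a b u) 0 := by
    unfold gtf dgtf
    have h3 := (hdiv.const_add
      (4 * (a.1.re * b.1.re + a.1.im * b.1.im + a.2.1.re * b.2.1.re + a.2.1.im * b.2.1.im))).fun_add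
      (harc.mul_const
        (a.1.im * b.2.1.re - a.1.re * b.2.1.im + b.1.im * a.2.1.re - b.1.re * a.2.1.im))
    simpa using h3
  exact h1.unique h2

lemma I_smul_components (v : V) :
    (Complex.I • v).1.re = -v.1.im ∧ (Complex.I • v).1.im = v.1.re ∧
    (Complex.I • v).2.1.re = -v.2.1.im ∧ (Complex.I • v).2.1.im = v.2.1.re ∧
    (Complex.I • v).2.2.re = -v.2.2.im ∧ (Complex.I • v).2.2.im = v.2.2.re := by
  refine ⟨?_, ?_, ?_, ?_, ?_, ?_⟩ <;> simp

lemma thR_I (e v : V) : thR e (Complex.I • v) = -thI e v := by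
  obtain ⟨h1, h2, h3, h4, h5, h6⟩ := I_smul_components v
  simp only [thR, thI, h2, h3, h5]; ring

lemma thI_I (e v : V) : thI e (Complex.I • v) = thR e v := by
  obtain ⟨h1, h2, h3, h4, h5, h6⟩ := I_smul_components v
  simp only [thR, thI, h1, h4, h6]; ring

lemma gtf_hermitian (e v w : V) : gtf e (Complex.I • v) (Complex.I • w) = gtf e v w := by
  obtain ⟨h1, h2, h3, h4, h5, h6⟩ := I_smul_components v
  obtain ⟨k1, k2, k3, k4, k5, k6⟩ := I_smul_components w
  simp only [gtf, thR_I, thI_I, h1, h2, h3, h4, k1, k2, k3, k4]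
  ring

lemma gtf_closed (e u v w : V) :
    dgtf e (Complex.I • v) w u + dgtf e (Complex.I • w) u v + dgtf e (Complex.I • u) v w = 0 := by
  obtain ⟨h1, h2, h3, h4, h5, h6⟩ := I_smul_components v
  obtain ⟨k1, k2, k3, k4, k5, k6⟩ := I_smul_components w
  obtain ⟨l1, l2, l3, l4, l5, l6⟩ := I_smul_components u
  simp only [dgtf, thR_I, thI_I, thR', thI', h1, h2, h3, h4, k1, k2, k3, k4, l1, l2, l3, l4]
  have hT := (one_add_sq_pos (tt e)).ne'
  set T := tt e with hTdef
  simp only [thR, thI]
  field_simp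
  ring

lemma metricInChart_metricQ {ψ : OpenPartialHomeomorph Q V} (hψ : ψ ∈ atlas V Q) (e v w : V) :
    metricInChart metricQ ψ e v w = gtf e v w := by
  rw [mem_atlas_iff] at hψ
  unfold metricInChart
  rw [hψ]
  exact gt_proj e v w

lemma isKahler_metricQ : IsKahlerMetric metricQ where
  hermitian ψ hψ e _ v w := by
    rw [metricInChart_metricQ hψ, metricInChart_metricQ hψ, gtf_hermitian]
  closed ψ hψ e _ u v w := by
    simp only [metricInChart_metricQ hψ, fderiv_gtf]
    exact gtf_closed e u v w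

end Heis

end Pool.Agent.H65
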