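import Pool.Agent.H65.HeisAction

/-!
# The quotient of `ℂ × ℂ × ℂ` by the integer Heisenberg group as a complex manifold
-/

namespace Pool.Agent.H65

open Topology Set Manifold ContDiff

namespace Heis

/-- The quotient of `ℂ³` by the integer Heisenberg group. -/
abbrev Q : Type := Quotient (MulAction.orbitRel Heis V)

/-- The projection. -/
noncomputable def proj : V → Q := Quotient.mk (MulAction.orbitRel Heis V)

lemma isCov : IsQuotientCoveringMap proj Heis :=
  isQuotientCoveringMap_quotientMk_of_properlyDiscontinuousSMul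

lemma isLocalHomeo : IsLocalHomeomorph proj := isCov.isCoveringMap.isLocalHomeomorph

lemma proj_smul (g : Heis) (v : V) : proj (g • v) = proj v := isCov.map_smul g

lemma exists_smul_of_proj_eq {u v : V} (h : proj u = proj v) : ∃ g : Heis, u = g • v := by
  obtain ⟨g, hg⟩ := isCov.apply_eq_iff_mem_orbit.mp h
  exact ⟨g, hg.symm⟩

/-- A chosen lift. -/
noncomputable def base (x : Q) : V := Quotient.out x

lemma proj_base (x : Q) : proj (base x) = x := Quotient.out_eq x

lemma proj_surjective : Function.Surjective proj := fun x => ⟨base x, proj_base x⟩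

/-- The chart at `x`: a local inverse of `proj` sending `x` to `base x`. -/
noncomputable def chart (x : Q) : OpenPartialHomeomorph Q V :=
  (Classical.choose (isLocalHomeo (base x))).symm

lemma chart_symm_coe (x : Q) : ⇑(chart x).symm = proj := by
  have h := (Classical.choose_spec (isLocalHomeo (base x))).2
  simp only [chart, OpenPartialHomeomorph.symm_symm]
  exact h.symm

lemma base_mem_target (x : Q) : base x ∈ (chart x).target := by
  have h := (Classical.choose_spec (isLocalHomeo (base x))).1
  simpa only [chart, OpenPartialHomeomorph.symm_target] using h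

lemma mem_chart_source' (x : Q) : x ∈ (chart x).source := by
  have h := (chart x).map_target (base_mem_target x)
  rwa [chart_symm_coe, proj_base] at h

lemma chart_self (x : Q) : chart x x = base x := by
  have h := (chart x).right_inv (base_mem_target x)
  rwa [chart_symm_coe, proj_base] at h

noncomputable instance : ChartedSpace V Q where
  atlas := {ψ | ⇑ψ.symm = proj}
  chartAt := chart
  mem_chart_source := mem_chart_source'
  chart_mem_atlas := chart_symm_coe

lemma mem_atlas_iff (ψ : OpenPartialHomeomorph Q V) : ψ ∈ atlas V Q ↔ ⇑ψ.symm = proj := Iff.rfl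

lemma chartAt_eq (x : Q) : chartAt V x = chart x := rfl

/-- Transition maps are locally given by the group action. -/
lemma transition {ψ : OpenPartialHomeomorph Q V} (hψ : ⇑ψ.symm = proj) {e : V}
    (he : proj e ∈ ψ.source) :
    ∃ g : Heis, ψ (proj e) = g • e ∧ ∀ᶠ u in 𝓝 e, ψ (proj u) = g • u := by
  have h1 : proj (ψ (proj e)) = proj e := by
    rw [← hψ]
    have := ψ.left_inv he
    rwa [hψ] at this ⊢
  obtain ⟨g, hg⟩ := exists_smul_of_proj_eq h1
  refine ⟨g, hg, ?_⟩
  have hmem : g • e ∈ ψ.target := hg ▸ ψ.map_source he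
  have hc : Continuous fun u : V => g • u := continuous_const_smul g
  filter_upwards [hc.continuousAt.preimage_mem_nhds (ψ.open_target.mem_nhds hmem)] with u hu
  have h2 := ψ.right_inv hu
  rwa [hψ, proj_smul] at h2

lemma contDiff_smul_real (g : Heis) {n : ℕ∞ω} : ContDiff ℝ n (fun v : V => g • v) := by
  show ContDiff ℝ n fun v : V => (v.1 + (g.a : ℂ), v.2.1 + (g.b : ℂ), v.2.2 + g.c + g.a * v.2.1)
  fun_prop

lemma contDiff_smul_complex (g : Heis) {n : ℕ∞ω} : ContDiff ℂ n (fun v : V => g • v) := by
  show ContDiff ℂ n fun v : V => (v.1 + (g.a : ℂ), v.2.1 + (g.b : ℂ), v.2.2 + g.c + g.a * v.2.1)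
  fun_prop

lemma isManifold_of {𝕜 : Type} [NontriviallyNormedField 𝕜] [NormedSpace 𝕜 V]
    (h : ∀ g : Heis, ContDiff 𝕜 ω (fun v : V => g • v)) : IsManifold 𝓘(𝕜, V) ω Q := by
  refine isManifold_of_contDiffOn _ _ _ ?_
  intro ψ ψ' hψ hψ' e he
  have he1 : e ∈ (ψ.symm ≫ₕ ψ').source := by simpa using he
  have he2 : proj e ∈ ψ'.source := by
    rw [OpenPartialHomeomorph.trans_source] at he1
    have := he1.2
    rwa [mem_preimage, (mem_atlas_iff ψ).1 hψ] at this
  obtain ⟨g, -, hg⟩ := transition ((mem_atlas_iff ψ').1 hψ') he2
  refine ContDiffAt.contDiffWithinAt ?_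
  refine (h g).contDiffAt.congr_of_eventuallyEq ?_
  filter_upwards [hg] with u hu
  simp only [modelWithCornersSelf_coe, modelWithCornersSelf_coe_symm, Function.comp_apply, id_eq,
    OpenPartialHomeomorph.coe_trans, CompTriple.comp_eq]
  rw [(mem_atlas_iff ψ).1 hψ]
  exact hu

instance instRealManifold : IsManifold 𝓘(ℝ, V) ω Q := isManifold_of fun g => contDiff_smul_real g

instance instComplexManifold : IsManifold 𝓘(ℂ, V) ω Q := isManifold_of fun g => contDiff_smul_complex g

instance : T2Space Q := t2Space_of_properlyDiscontinuousSMul_of_t2Space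

instance : SecondCountableTopology Q := ContinuousConstSMul.secondCountableTopology

instance : LocallyCompactSpace Q := ChartedSpace.locallyCompactSpace V Q

instance : T3Space Q := inferInstance

instance : ConnectedSpace Q := inferInstance

end Heis

end Pool.Agent.H65
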