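import Pool.Agent.H65.HeisTangent

/-!
# The invariant Kaehler metric on `ℂ³`
-/

namespace Pool.Agent.H65

open Topology Set Manifold ContDiff

namespace Heis

/-- The invariant function `t = Im z - Re x * Im y`. -/
noncomputable def tt (e : V) : ℝ := e.2.2.im - e.1.re * e.2.1.im

/-- Real part of the invariant form. -/
noncomputable def thR (e v : V) : ℝ := v.2.2.re + e.2.1.im * v.1.im - e.1.re * v.2.1.re

/-- Imaginary part of the invariant form. -/
noncomputable def thI (e v : V) : ℝ := v.2.2.im - e.2.1.im * v.1.re - e.1.re * v.2.1.im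

/-- The bilinear form. -/
noncomputable def gtf (e v w : V) : ℝ :=
  4 * (v.1.re * w.1.re + v.1.im * w.1.im + v.2.1.re * w.2.1.re + v.2.1.im * w.2.1.im)
  + (thR e v * thR e w + thI e v * thI e w) / (1 + tt e ^ 2)
  + Real.arctan (tt e) *
    (v.1.im * w.2.1.re - v.1.re * w.2.1.im + w.1.im * v.2.1.re - w.1.re * v.2.1.im)

lemma tt_smul (g : Heis) (e : V) : tt (g • e) = tt e := by
  simp [tt]; ring

lemma thR_smul (g : Heis) (e v : V) : thR (g • e) (lin g v) = thR e v := by
  simp [thR]; ring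

lemma thI_smul (g : Heis) (e v : V) : thI (g • e) (lin g v) = thI e v := by
  simp [thI]; ring

lemma gtf_smul (g : Heis) (e v w : V) : gtf (g • e) (lin g v) (lin g w) = gtf e v w := by
  simp only [gtf, tt_smul, thR_smul, thI_smul]
  simp only [lin_apply]

lemma gtf_symm (e v w : V) : gtf e v w = gtf e w v := by
  simp only [gtf]; ring

lemma gtf_add_left (e v v' w : V) : gtf e (v + v') w = gtf e v w + gtf e v' w := by
  simp only [gtf, thR, thI, Prod.fst_add, Prod.snd_add, Complex.add_re, Complex.add_im]; ring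

lemma gtf_smul_left (e : V) (c : ℝ) (v w : V) : gtf e (c • v) w = c * gtf e v w := by
  simp only [gtf, thR, thI, Prod.smul_fst, Prod.smul_snd, Complex.smul_re, Complex.smul_im,
    smul_eq_mul]; ring

lemma gtf_add_right (e v w w' : V) : gtf e v (w + w') = gtf e v w + gtf e v w' := by
  rw [gtf_symm, gtf_add_left, gtf_symm e w, gtf_symm e w']

lemma gtf_smul_right (e : V) (c : ℝ) (v w : V) : gtf e v (c • w) = c * gtf e v w := by
  rw [gtf_symm, gtf_smul_left, gtf_symm]

/-- The metric as a continuous bilinear form. -/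
noncomputable def gt (e : V) : V →L[ℝ] V →L[ℝ] ℝ :=
  LinearMap.toContinuousLinearMap
    ((LinearMap.toContinuousLinearMap : (V →ₗ[ℝ] ℝ) ≃ₗ[ℝ] (V →L[ℝ] ℝ)).toLinearMap ∘ₗ
      LinearMap.mk₂ ℝ (gtf e) (gtf_add_left e) (gtf_smul_left e) (gtf_add_right e)
        (gtf_smul_right e))

@[simp] lemma gt_apply (e v w : V) : gt e v w = gtf e v w := rfl

lemma contDiff_re' : ContDiff ℝ ω Complex.re := Complex.reCLM.contDiff
lemma contDiff_im' : ContDiff ℝ ω Complex.im := Complex.imCLM.contDiff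

lemma contDiff_tt : ContDiff ℝ ω tt := by
  unfold tt
  have h1 : ContDiff ℝ ω (fun e : V => e.2.2.im) := contDiff_im'.comp (by fun_prop)
  have h2 : ContDiff ℝ ω (fun e : V => e.1.re) := contDiff_re'.comp (by fun_prop)
  have h3 : ContDiff ℝ ω (fun e : V => e.2.1.im) := contDiff_im'.comp (by fun_prop)
  exact h1.sub (h2.mul h3)

lemma contDiff_thR (v : V) : ContDiff ℝ ω (fun e => thR e v) := by
  unfold thR
  have h2 : ContDiff ℝ ω (fun e : V => e.1.re) := contDiff_re'.comp (by fun_prop)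
  have h3 : ContDiff ℝ ω (fun e : V => e.2.1.im) := contDiff_im'.comp (by fun_prop)
  fun_prop

lemma contDiff_thI (v : V) : ContDiff ℝ ω (fun e => thI e v) := by
  unfold thI
  have h2 : ContDiff ℝ ω (fun e : V => e.1.re) := contDiff_re'.comp (by fun_prop)
  have h3 : ContDiff ℝ ω (fun e : V => e.2.1.im) := contDiff_im'.comp (by fun_prop)
  fun_prop

lemma one_add_sq_pos (x : ℝ) : 0 < 1 + x ^ 2 := by positivity

lemma contDiff_gtf (v w : V) : ContDiff ℝ ω (fun e => gtf e v w) := by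
  unfold gtf
  have h0 := contDiff_tt
  have h1 := contDiff_thR v
  have h2 := contDiff_thR w
  have h3 := contDiff_thI v
  have h4 := contDiff_thI w
  have h5 : ContDiff ℝ ω (fun e => Real.arctan (tt e)) := Real.contDiff_arctan.comp h0
  refine ContDiff.add (ContDiff.add contDiff_const ?_) (h5.mul contDiff_const)
  refine ContDiff.div ?_ ?_ (fun e => (one_add_sq_pos _).ne')
  · exact (h1.mul h2).add (h3.mul h4)
  · exact contDiff_const.add (h0.pow 2)

lemma contDiff_gt : ContDiff ℝ ω gt := by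
  rw [contDiff_clm_apply_iff]
  intro v
  rw [contDiff_clm_apply_iff]
  intro w
  exact contDiff_gtf v w

lemma abs_arctan_le (x : ℝ) : |Real.arctan x| ≤ 2 := by
  rw [abs_le]
  have h1 := Real.arctan_lt_pi_div_two x
  have h2 := Real.neg_pi_div_two_lt_arctan x
  have h3 := Real.pi_lt_four
  constructor <;> linarith

lemma gtf_self_ge (e v : V) :
    2 * (v.1.re ^ 2 + v.1.im ^ 2 + v.2.1.re ^ 2 + v.2.1.im ^ 2)
      + (thR e v ^ 2 + thI e v ^ 2) / (1 + tt e ^ 2) ≤ gtf e v v := by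
  have h := abs_arctan_le (tt e)
  set A := Real.arctan (tt e) with hA
  have h3 : |A * (v.1.im * v.2.1.re - v.1.re * v.2.1.im + v.1.im * v.2.1.re - v.1.re * v.2.1.im)|
      ≤ 2 * (v.1.re ^ 2 + v.1.im ^ 2 + v.2.1.re ^ 2 + v.2.1.im ^ 2) := by
    rw [abs_mul]
    refine mul_le_mul h ?_ (abs_nonneg _) (by norm_num)
    rw [abs_le]
    constructor <;> nlinarith [sq_nonneg (v.1.im + v.2.1.re), sq_nonneg (v.1.im - v.2.1.re),
      sq_nonneg (v.1.re + v.2.1.im), sq_nonneg (v.1.re - v.2.1.im)]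
  have h4 := (abs_le.1 h3).1
  simp only [gtf]
  rw [← hA]
  have h5 : (thR e v * thR e v + thI e v * thI e v) = thR e v ^ 2 + thI e v ^ 2 := by ring
  rw [h5]
  nlinarith

lemma four_sq_eq_zero {a b c d : ℝ} (h : a ^ 2 + b ^ 2 + c ^ 2 + d ^ 2 = 0) :
    a = 0 ∧ b = 0 ∧ c = 0 ∧ d = 0 := by
  have ha := sq_nonneg a
  have hb := sq_nonneg b
  have hc := sq_nonneg c
  have hd := sq_nonneg d
  refine ⟨?_, ?_, ?_, ?_⟩ <;> apply pow_eq_zero_iff (two_ne_zero) |>.1 <;> linarith

lemma gtf_self_pos (e v : V) (hv : v ≠ 0) : 0 < gtf e v v := by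
  refine lt_of_lt_of_le ?_ (gtf_self_ge e v)
  by_contra hcon
  push Not at hcon
  have h1 : 0 ≤ v.1.re ^ 2 + v.1.im ^ 2 + v.2.1.re ^ 2 + v.2.1.im ^ 2 := by positivity
  have h2 : 0 ≤ (thR e v ^ 2 + thI e v ^ 2) / (1 + tt e ^ 2) :=
    div_nonneg (by positivity) (one_add_sq_pos _).le
  have h3 : v.1.re ^ 2 + v.1.im ^ 2 + v.2.1.re ^ 2 + v.2.1.im ^ 2 = 0 := by linarith
  have h4 : (thR e v ^ 2 + thI e v ^ 2) / (1 + tt e ^ 2) = 0 := by linarith
  obtain ⟨a1, a2, a3, a4⟩ := four_sq_eq_zero h3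
  have h5 : thR e v ^ 2 + thI e v ^ 2 = 0 := by
    rcases (div_eq_zero_iff.1 h4) with h | h
    · exact h
    · exact absurd h (one_add_sq_pos _).ne'
  have b1 : thR e v = 0 := by nlinarith [sq_nonneg (thR e v), sq_nonneg (thI e v)]
  have b2 : thI e v = 0 := by nlinarith [sq_nonneg (thR e v), sq_nonneg (thI e v)]
  simp only [thR, a2, a3] at b1
  simp only [thI, a1, a4] at b2
  apply hv
  refine Prod.ext (Complex.ext a1 a2) (Prod.ext (Complex.ext a3 a4) (Complex.ext ?_ ?_))
  · simpa using b1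
  · simpa using b2

end Heis

end Pool.Agent.H65
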