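import Pool.Agent.H65.HeisMetric

/-!
# The Riemannian metric on the quotient
-/

namespace Pool.Agent.H65

open Topology Set Manifold ContDiff Bundle

namespace Heis

lemma gt_proj (e : V) (v w : V) :
    gtf (base (proj e)) (mfderiv 𝓘(ℝ, V) 𝓘(ℝ, V) proj e v : V)
      (mfderiv 𝓘(ℝ, V) 𝓘(ℝ, V) proj e w : V) = gtf e v w := by
  obtain ⟨g, hg0, hg⟩ := mfderiv_proj e
  rw [hg0, hg, hg, gtf_smul]

lemma extChartAt_symm_coe (x₀ : Q) : ⇑(extChartAt 𝓘(ℝ, V) x₀).symm = proj := by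
  simp only [mfld_simps]
  exact chart_symm_coe x₀

set_option backward.isDefEq.respectTransparency false in
lemma triv_symm_eq (x₀ x : Q) (hx : x ∈ (chartAt V x₀).source) (v : V) :
    (trivializationAt V (fun x : Q => TangentSpace 𝓘(ℝ, V) x) x₀).symm x v =
      (mfderiv 𝓘(ℝ, V) 𝓘(ℝ, V) proj (chart x₀ x) v : V) := by
  have h1 : x ∈ (trivializationAt V (fun x : Q => TangentSpace 𝓘(ℝ, V) x) x₀).baseSet := by
    simpa using hx
  have h := TangentBundle.symmL_trivializationAt (I := 𝓘(ℝ, V)) hx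
  rw [extChartAt_symm_coe] at h
  simp only [mfld_simps, mfderivWithin_univ] at h
  rw [← Trivialization.symmL_apply (R := ℝ) _ h1 v]
  have h3 := congrArg (fun L => L v) h
  exact h3

set_option backward.isDefEq.respectTransparency false in
/-- The metric in coordinates. -/
lemma coord_eq (x₀ x : Q) (hx : x ∈ (chartAt V x₀).source) (v w : V) :
    ContinuousLinearMap.inCoordinates V (fun x : Q => TangentSpace 𝓘(ℝ, V) x) (V →L[ℝ] ℝ)
      (fun x : Q => TangentSpace 𝓘(ℝ, V) x →L[ℝ] Bundle.Trivial Q ℝ x) x₀ x x₀ x (gt (base x)) v w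
      = gtf (chart x₀ x) v w := by
  have h1 : x ∈ (trivializationAt V (fun x : Q => TangentSpace 𝓘(ℝ, V) x) x₀).baseSet := by
    simpa using hx
  rw [inCoordinates_apply_eq₂ h1 h1 (Set.mem_univ _)]
  rw [triv_symm_eq x₀ x hx, triv_symm_eq x₀ x hx]
  have h2 : proj (chart x₀ x) = x := by
    have := (chart x₀).left_inv hx
    rwa [chart_symm_coe] at this
  have h3 := gt_proj (chart x₀ x) v w
  rw [h2] at h3
  simp only [Trivial.fiberBundle_trivializationAt', Trivial.linearMapAt_trivialization,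
    LinearMap.id_coe, id_eq]
  exact h3

lemma isVonNBounded_gtf (e : V) : Bornology.IsVonNBounded ℝ {v : V | gtf e v v < 1} := by
  rw [NormedSpace.isVonNBounded_iff, isBounded_iff_forall_norm_le]
  refine ⟨2 * (1 + (1 + tt e ^ 2) + |e.2.1.im| + |e.1.re|), fun v hv => ?_⟩
  have h0 : gtf e v v < 1 := hv
  have h1 := gtf_self_ge e v
  have h2 : 0 ≤ (thR e v ^ 2 + thI e v ^ 2) / (1 + tt e ^ 2) :=
    div_nonneg (by positivity) (one_add_sq_pos _).le
  have hS : v.1.re ^ 2 + v.1.im ^ 2 + v.2.1.re ^ 2 + v.2.1.im ^ 2 ≤ 1 := by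
    have : 0 ≤ v.1.re ^ 2 + v.1.im ^ 2 + v.2.1.re ^ 2 + v.2.1.im ^ 2 := by positivity
    linarith
  have hT : thR e v ^ 2 + thI e v ^ 2 ≤ 1 + tt e ^ 2 := by
    have h3 : (thR e v ^ 2 + thI e v ^ 2) / (1 + tt e ^ 2) ≤ 1 := by
      have : 0 ≤ v.1.re ^ 2 + v.1.im ^ 2 + v.2.1.re ^ 2 + v.2.1.im ^ 2 := by positivity
      linarith
    rwa [div_le_one (one_add_sq_pos _)] at h3
  have b1 : |v.1.re| ≤ 1 := by
    rw [← sq_le_one_iff_abs_le_one]
    have := sq_nonneg v.1.im; have := sq_nonneg v.2.1.re; have := sq_nonneg v.2.1.im; linarith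
  have b2 : |v.1.im| ≤ 1 := by
    rw [← sq_le_one_iff_abs_le_one]
    have := sq_nonneg v.1.re; have := sq_nonneg v.2.1.re; have := sq_nonneg v.2.1.im; linarith
  have b3 : |v.2.1.re| ≤ 1 := by
    rw [← sq_le_one_iff_abs_le_one]
    have := sq_nonneg v.1.im; have := sq_nonneg v.1.re; have := sq_nonneg v.2.1.im; linarith
  have b4 : |v.2.1.im| ≤ 1 := by
    rw [← sq_le_one_iff_abs_le_one]
    have := sq_nonneg v.1.im; have := sq_nonneg v.2.1.re; have := sq_nonneg v.1.re; linarith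
  have c0 : (1 : ℝ) ≤ 1 + tt e ^ 2 := by nlinarith [sq_nonneg (tt e)]
  have hbd : ∀ x : ℝ, x ^ 2 ≤ 1 + tt e ^ 2 → |x| ≤ 1 + tt e ^ 2 := by
    intro x hx
    refine abs_le_of_sq_le_sq (hx.trans ?_) (one_add_sq_pos _).le
    nlinarith
  have c1 : |thR e v| ≤ 1 + tt e ^ 2 := hbd _ (by have := sq_nonneg (thI e v); linarith)
  have c2 : |thI e v| ≤ 1 + tt e ^ 2 := hbd _ (by have := sq_nonneg (thR e v); linarith)
  have d1 : |v.2.2.re| ≤ (1 + tt e ^ 2) + |e.2.1.im| + |e.1.re| := by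
    have e1 : v.2.2.re = thR e v - e.2.1.im * v.1.im + e.1.re * v.2.1.re := by
      simp only [thR]; ring
    rw [e1]
    calc |thR e v - e.2.1.im * v.1.im + e.1.re * v.2.1.re|
        ≤ |thR e v| + |e.2.1.im * v.1.im| + |e.1.re * v.2.1.re| :=
          (abs_add_le _ _).trans (add_le_add_left (abs_sub _ _) _)
      _ = |thR e v| + |e.2.1.im| * |v.1.im| + |e.1.re| * |v.2.1.re| := by
          rw [abs_mul, abs_mul]
      _ ≤ (1 + tt e ^ 2) + |e.2.1.im| * 1 + |e.1.re| * 1 := by gcongr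
      _ = _ := by ring
  have d2 : |v.2.2.im| ≤ (1 + tt e ^ 2) + |e.2.1.im| + |e.1.re| := by
    have e1 : v.2.2.im = thI e v + e.2.1.im * v.1.re + e.1.re * v.2.1.im := by
      simp only [thI]; ring
    rw [e1]
    calc |thI e v + e.2.1.im * v.1.re + e.1.re * v.2.1.im|
        ≤ |thI e v| + |e.2.1.im * v.1.re| + |e.1.re * v.2.1.im| :=
          (abs_add_le _ _).trans (add_le_add_left (abs_add_le _ _) _)
      _ = |thI e v| + |e.2.1.im| * |v.1.re| + |e.1.re| * |v.2.1.im| := by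
          rw [abs_mul, abs_mul]
      _ ≤ (1 + tt e ^ 2) + |e.2.1.im| * 1 + |e.1.re| * 1 := by gcongr
      _ = _ := by ring
  have p1 := abs_nonneg e.2.1.im
  have p2 := abs_nonneg e.1.re
  have n1 : ‖v.1‖ ≤ 2 * (1 + (1 + tt e ^ 2) + |e.2.1.im| + |e.1.re|) :=
    (Complex.norm_le_abs_re_add_abs_im _).trans (by linarith)
  have n2 : ‖v.2.1‖ ≤ 2 * (1 + (1 + tt e ^ 2) + |e.2.1.im| + |e.1.re|) :=
    (Complex.norm_le_abs_re_add_abs_im _).trans (by linarith)
  have n3 : ‖v.2.2‖ ≤ 2 * (1 + (1 + tt e ^ 2) + |e.2.1.im| + |e.1.re|) :=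
    (Complex.norm_le_abs_re_add_abs_im _).trans (by linarith)
  rw [Prod.norm_def, Prod.norm_def]
  exact max_le n1 (max_le n2 n3)

set_option backward.isDefEq.respectTransparency false in
/-- The Riemannian metric on the quotient. -/
noncomputable def metricQ :
    ContMDiffRiemannianMetric 𝓘(ℝ, V) ∞ V (fun x : Q => TangentSpace 𝓘(ℝ, V) x) where
  inner x := gt (base x)
  symm x v w := gtf_symm _ _ _
  pos x v hv := gtf_self_pos _ _ hv
  isVonNBounded x := isVonNBounded_gtf (base x)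
  contMDiff := by
    intro x₀
    rw [contMDiffAt_hom_bundle]
    refine ⟨contMDiffAt_id, ?_⟩
    have h1 : ContMDiffAt 𝓘(ℝ, V) 𝓘(ℝ, V →L[ℝ] V →L[ℝ] ℝ) ∞ (fun x : Q => gt (chart x₀ x)) x₀ := by
      exact (contDiff_gt.contMDiff.contMDiffAt.of_le le_top).comp x₀ contMDiffAt_extChartAt
    refine h1.congr_of_eventuallyEq ?_
    have h2 : (chartAt V x₀).source ∈ 𝓝 x₀ := chart_source_mem_nhds V x₀
    filter_upwards [h2] with x hx
    exact ContinuousLinearMap.ext fun v => ContinuousLinearMap.ext fun w => coord_eq x₀ x hx v w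

end Heis

end Pool.Agent.H65
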