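import Pool.Agent.H65.HeisManifold

/-!
# The differential of the projection
-/

namespace Pool.Agent.H65

open Topology Set Manifold ContDiff

namespace Heis

/-- The linear part of the action of `g`. -/
noncomputable def lin (g : Heis) : V →L[ℝ] V :=
  (ContinuousLinearMap.fst ℝ ℂ (ℂ × ℂ)).prod
    (((ContinuousLinearMap.fst ℝ ℂ ℂ).comp (ContinuousLinearMap.snd ℝ ℂ (ℂ × ℂ))).prod
      ((ContinuousLinearMap.snd ℝ ℂ ℂ).comp (ContinuousLinearMap.snd ℝ ℂ (ℂ × ℂ)) +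
        (g.a : ℝ) • ((ContinuousLinearMap.fst ℝ ℂ ℂ).comp
          (ContinuousLinearMap.snd ℝ ℂ (ℂ × ℂ)))))

@[simp] lemma lin_apply (g : Heis) (v : V) : lin g v = (v.1, v.2.1, v.2.2 + g.a * v.2.1) := by
  simp [lin]

lemma smul_eq_lin_add (g : Heis) (v : V) :
    g • v = lin g v + ((g.a : ℂ), (g.b : ℂ), (g.c : ℂ)) := by
  refine Prod.ext ?_ (Prod.ext ?_ ?_)
  · simp
  · simp
  · simp; ring

lemma hasFDerivAt_smul (g : Heis) (e : V) : HasFDerivAt (fun v : V => g • v) (lin g) e := by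
  have h : (fun v : V => g • v) = fun v => lin g v + ((g.a : ℂ), (g.b : ℂ), (g.c : ℂ)) := by
    funext v; exact smul_eq_lin_add g v
  rw [h]
  exact (lin g).hasFDerivAt.add_const _

lemma contMDiff_proj_of {𝕜 : Type} [NontriviallyNormedField 𝕜] [NormedSpace 𝕜 V]
    (h : ∀ g : Heis, ContDiff 𝕜 ω (fun v : V => g • v)) :
    ContMDiff 𝓘(𝕜, V) 𝓘(𝕜, V) ω proj := by
  intro e
  rw [contMDiffAt_iff]
  refine ⟨isLocalHomeo.continuous.continuousAt, ?_⟩
  obtain ⟨g, -, hg⟩ := transition (ψ := chart (proj e)) (chart_symm_coe _)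
    (mem_chart_source' (proj e))
  refine ContDiffAt.contDiffWithinAt ?_
  refine (h g).contDiffAt.congr_of_eventuallyEq ?_
  simp only [mfld_simps]
  exact hg

lemma contMDiff_proj_real : ContMDiff 𝓘(ℝ, V) 𝓘(ℝ, V) ω proj :=
  contMDiff_proj_of fun g => contDiff_smul_real g

lemma contMDiff_proj_complex : ContMDiff 𝓘(ℂ, V) 𝓘(ℂ, V) ω proj :=
  contMDiff_proj_of fun g => contDiff_smul_complex g

/-- The differential of the projection. -/
lemma mfderiv_proj (e : V) : ∃ g : Heis, base (proj e) = g • e ∧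
    ∀ v : V, (mfderiv 𝓘(ℝ, V) 𝓘(ℝ, V) proj e v : V) = lin g v := by
  obtain ⟨g, hg0, hg⟩ := transition (ψ := chart (proj e)) (chart_symm_coe _)
    (mem_chart_source' (proj e))
  rw [chart_self] at hg0
  refine ⟨g, hg0, fun v => ?_⟩
  have hd : MDifferentiableAt 𝓘(ℝ, V) 𝓘(ℝ, V) proj e :=
    (contMDiff_proj_real e).mdifferentiableAt (by simp)
  have key : fderivWithin ℝ (writtenInExtChartAt 𝓘(ℝ, V) 𝓘(ℝ, V) e proj) (range 𝓘(ℝ, V))
      ((extChartAt 𝓘(ℝ, V) e) e) = lin g := by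
    have h2 : HasFDerivAt (writtenInExtChartAt 𝓘(ℝ, V) 𝓘(ℝ, V) e proj) (lin g)
        ((extChartAt 𝓘(ℝ, V) e) e) := by
      refine (hasFDerivAt_smul g _).congr_of_eventuallyEq ?_
      simp only [writtenInExtChartAt, mfld_simps]
      exact hg
    rw [show range 𝓘(ℝ, V) = univ by simp, fderivWithin_univ]
    exact h2.fderiv
  rw [mfderiv, if_pos hd]
  exact congrArg (fun L : V →L[ℝ] V => L v) key

end Heis

end Pool.Agent.H65
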